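import Mathlib

/-! Two Frobenius groups of order 273 with isomorphic subrack lattices and non-isomorphic
conjugation racks. -/

set_option autoImplicit false

namespace Pool.Agent.Results.MP_f3891b_al.Frob273

/-- The subracks of the conjugation rack of `G`, ordered by inclusion. -/
def Subrack (G : Type) [Group G] : Type := {S : Set G // ∀ x ∈ S, ∀ y ∈ S, x * y * x⁻¹ ∈ S}

instance (G : Type) [Group G] : PartialOrder (Subrack G) :=
  inferInstanceAs (PartialOrder {S : Set G // ∀ x ∈ S, ∀ y ∈ S, x * y * x⁻¹ ∈ S})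

abbrev K := ZMod 91

def rho (b : Bool) (i : ZMod 3) : K :=
  if i = 0 then 1 else if i = 1 then (if b then 16 else 9) else (if b then 74 else 81)

theorem rho_add : ∀ b i j, rho b (i + j) = rho b i * rho b j := by decide
theorem rho_zero : ∀ b, rho b 0 = 1 := by decide

@[ext] structure G (b : Bool) where
  k : K
  i : ZMod 3
deriving DecidableEq

instance (b : Bool) : Finite (G b) :=
  Finite.of_injective (fun x : G b => (x.k, x.i)) fun x y h => by
    simp only [Prod.mk.injEq] at h; exact G.ext h.1 h.2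

instance (b : Bool) : Mul (G b) := ⟨fun x y => ⟨x.k + rho b x.i * y.k, x.i + y.i⟩⟩
instance (b : Bool) : One (G b) := ⟨⟨0, 0⟩⟩
instance (b : Bool) : Inv (G b) := ⟨fun x => ⟨-(rho b (-x.i) * x.k), -x.i⟩⟩

variable {b : Bool}
theorem mul_k (x y : G b) : (x * y).k = x.k + rho b x.i * y.k := rfl
theorem mul_i (x y : G b) : (x * y).i = x.i + y.i := rfl
theorem one_k : (1 : G b).k = 0 := rfl
theorem one_i : (1 : G b).i = 0 := rfl
theorem inv_k (x : G b) : x⁻¹.k = -(rho b (-x.i) * x.k) := rfl
theorem inv_i (x : G b) : x⁻¹.i = -x.i := rfl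

instance (b : Bool) : Group (G b) := Group.ofLeftAxioms
  (fun x y z => G.ext (by simp only [mul_k, mul_i, rho_add]; ring) (by simp only [mul_i]; ring))
  (fun x => G.ext (by simp [mul_k, one_k, one_i, rho_zero]) (by simp [mul_i, one_i]))
  (fun x => G.ext (by simp [mul_k, inv_k, inv_i, one_k]) (by simp [mul_i, inv_i, one_i]))

theorem conj_k (x y : G b) : (x * y * x⁻¹).k = rho b x.i * y.k + (1 - rho b y.i) * x.k := by
  have h : rho b x.i * rho b (-x.i) = 1 := by rw [← rho_add]; simp [rho_zero]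
  simp only [mul_k, mul_i, inv_k, rho_add]
  linear_combination (-rho b y.i * x.k) * h

theorem conj_i (x y : G b) : (x * y * x⁻¹).i = y.i := by simp [mul_i, inv_i]

theorem pow_tr (k : K) (n : ℕ) : (⟨k, 0⟩ : G b) ^ n = ⟨n * k, 0⟩ := by
  induction n with
  | zero => ext <;> simp [one_k, one_i]
  | succ n ih => rw [pow_succ, ih]; ext <;> simp [mul_k, mul_i, rho_zero]; ring

theorem pow_i (x : G b) (n : ℕ) : (x ^ n).i = n * x.i := by
  induction n with
  | zero => simp [one_i]
  | succ n ih => rw [pow_succ, mul_i, ih]; push_cast; ring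

theorem conj_mem {H : Type} [Group H] [Finite H] {S : Set H}
    (hS : ∀ x ∈ S, ∀ y ∈ S, x * y * x⁻¹ ∈ S) {w : H} (hw : w ∈ Subgroup.closure S) :
    ∀ y ∈ S, w * y * w⁻¹ ∈ S := by
  rw [← Subgroup.mem_toSubmonoid, Subgroup.closure_toSubmonoid_of_finite] at hw
  induction hw using Submonoid.closure_induction with
  | mem x hx => exact hS x hx
  | one => simp
  | mul x z _ _ hx hz => intro y hy; simpa [mul_assoc] using hx _ (hz y hy)

def mult (b : Bool) (k : K) : K := (if b then [1, 1, 29, 1, 22, 22, 29, 1, 1, 29, 1, 22, 22, 1, 1, 1, 29, 1, 22, 22, 29, 1, 1, 29, 1, 22, 1, 29, 1, 1, 29, 1, 22, 22, 29, 1, 1, 29, 1, 1, 22, 29, 1, 1, 29, 1, 22, 22, 29, 1, 1, 29, 1, 22, 22, 29, 1, 1, 29, 1, 22, 22, 29, 1, 1, 1, 1, 22, 22, 29, 1, 1, 29, 1, 22, 22, 29, 1, 1, 29, 1, 22, 22, 29, 1, 1, 29, 1, 22, 22, 29] else [1, 1, 22, 1, 29, 29, 22, 1, 1, 22, 1, 29, 29, 1, 1, 1, 22, 1, 29, 29, 22, 1, 1, 22, 1, 29, 1, 22, 1, 1, 22, 1, 29, 29, 22, 1, 1, 22, 1, 1, 29, 22, 1, 1, 22, 1, 29, 29, 22, 1, 1,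 22, 1, 29, 29, 22, 1, 1, 22, 1, 29, 29, 22, 1, 1, 1, 1, 29, 29, 22, 1, 1, 22, 1, 29, 29, 22, 1, 1, 22, 1, 29, 29, 22, 1, 1, 22, 1, 29, 29, 22] : List K).getD k.val 1

def inv1 (b : Bool) (i : ZMod 3) : K :=
  if i = 0 then 0 else if i = 1 then (if b then 6 else 34) else (if b then 86 else 58)

theorem inv1_mul : ∀ b i, i ≠ 0 → (1 - rho b i) * inv1 b i = 1 := by decide

def f (b : Bool) (x : G b) : G (!b) :=
  if x.i = 0 then ⟨mult b x.k * x.k, 0⟩ else ⟨(1 - rho (!b) x.i) * inv1 b x.i * x.k, x.i⟩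

theorem mult_inv : ∀ b k, mult (!b) (mult b k * k) * (mult b k * k) = k := by decide +kernel

theorem mult_orb : ∀ b i k, ∃ n : Fin 3, rho (!b) i * (mult b k * k) =
    mult b (rho b (n.val * i) * k) * (rho b (n.val * i) * k) ∨ i = 0 := by decide +kernel

theorem f_map {S : Set (G b)} (hS : ∀ x ∈ S, ∀ y ∈ S, x * y * x⁻¹ ∈ S) :
    ∀ x ∈ f b '' S, ∀ y ∈ f b '' S, x * y * x⁻¹ ∈ f b '' S := by
  rintro _ ⟨x, hx, rfl⟩ _ ⟨y, hy, rfl⟩
  have cx := Subgroup.subset_closure hx
  have cy := Subgroup.subset_closure hy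
  by_cases h1 : y.i = 0
  · by_cases h0 : x.i = 0
    · exact ⟨y, hy, by ext <;> simp [conj_k, conj_i, f, h0, h1, rho_zero]⟩
    · obtain ⟨n, hn | hn⟩ := mult_orb b x.i y.k
      · refine ⟨_, conj_mem hS (pow_mem cx n.val) y hy, ?_⟩
        ext <;> simp [conj_k, conj_i, f, h0, h1, rho_zero, pow_i, hn]
      · exact absurd hn h0
  · have e1 := inv1_mul b _ h1
    have tr : ∀ k : K, (⟨k, 0⟩ : G b) ∈ Subgroup.closure S → ∀ c : K,
        (⟨y.k + (1 - rho b y.i) * (c * k), y.i⟩ : G b) ∈ S := fun k hk c => by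
      have := conj_mem hS (pow_mem hk c.val) y hy
      rw [pow_tr] at this
      convert this using 1
      ext <;> simp [conj_k, conj_i, rho_zero]
    by_cases h0 : x.i = 0
    · refine ⟨_, tr x.k (by rw [show (⟨x.k, 0⟩ : G b) = x from G.ext rfl h0.symm]; exact cx) (mult b x.k), ?_⟩
      ext
      · simp only [conj_k, f, h0, h1, if_true, if_false, rho_zero]
        linear_combination ((1 - rho (!b) y.i) * mult b x.k * x.k) * e1
      · rw [conj_i]; simp [f, h1]
    · have e0 := inv1_mul b _ h0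
      have hc : (⟨(1 - rho b y.i) * x.k - (1 - rho b x.i) * y.k, 0⟩ : G b) ∈ Subgroup.closure S := by
        convert mul_mem (mul_mem (mul_mem cx cy) (inv_mem cx)) (inv_mem cy) using 1
        have h : rho b y.i * rho b (-y.i) = 1 := by rw [← rho_add]; simp [rho_zero]
        ext
        · rw [mul_k, conj_k, conj_i, inv_k]; linear_combination y.k * h
        · rw [mul_i, conj_i, inv_i]; simp
      refine ⟨_, tr _ hc ((1 - rho (!b) x.i) * inv1 b x.i * inv1 b y.i), ?_⟩
      ext
      · simp only [conj_k, f, h0, h1, if_false]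
        linear_combination ((1 - rho (!b) y.i) * ((1 - rho (!b) x.i) * inv1 b x.i * inv1 b y.i *
          ((1 - rho b y.i) * x.k - (1 - rho b x.i) * y.k))) * e1 +
          ((1 - rho (!b) y.i) * (1 - rho (!b) x.i) * inv1 b x.i * x.k) * e1 -
          ((1 - rho (!b) y.i) * (1 - rho (!b) x.i) * inv1 b y.i * y.k) * e0
      · rw [conj_i]; simp [f, h1]

theorem f_tf (x : G true) : f false (f true x) = x := by
  by_cases h : x.i = 0
  · ext <;> simp [f, h]; exact mult_inv true _
  · ext
    · simp only [f, h, if_false, Bool.not_true, Bool.not_false]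
      linear_combination ((1 - rho false x.i) * inv1 false x.i * x.k) * inv1_mul true _ h +
        x.k * inv1_mul false _ h
    · simp [f, h]

theorem f_ft (x : G false) : f true (f false x) = x := by
  by_cases h : x.i = 0
  · ext <;> simp [f, h]; exact mult_inv false _
  · ext
    · simp only [f, h, if_false, Bool.not_true, Bool.not_false]
      linear_combination ((1 - rho true x.i) * inv1 true x.i * x.k) * inv1_mul false _ h +
        x.k * inv1_mul true _ h
    · simp [f, h]

def iso : Subrack (G true) ≃o Subrack (G false) where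
  toFun S := ⟨f true '' S.1, f_map S.2⟩
  invFun S := ⟨f false '' S.1, f_map S.2⟩
  left_inv S := Subtype.ext (by
    change f false '' (f true '' S.1) = S.1
    rw [Set.image_image]; simp [f_tf])
  right_inv S := Subtype.ext (by
    change f true '' (f false '' S.1) = S.1
    rw [Set.image_image]; simp [f_ft])
  map_rel_iff' := Set.image_subset_image_iff (Function.LeftInverse.injective f_tf)

theorem conj_inj (u v : G b) (h : MulAut.conj u = MulAut.conj v) : u = v := by
  have h1 := congrArg (fun g : MulAut (G b) => (g ⟨1, 0⟩).k) h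
  have h2 := congrArg (fun g : MulAut (G b) => (g ⟨0, 1⟩).k) h
  simp only [MulAut.conj_apply, conj_k, rho_zero] at h1 h2
  have h3 : ∀ b i j, rho b i = rho b j → i = j := by decide
  ext
  · linear_combination inv1 b 1 * h2 + (v.k - u.k) * inv1_mul b 1 (by decide)
  · exact h3 b _ _ (by simpa using h1)

theorem result : ∃ (G H : Type) (_ : Group G) (_ : Group H) (_ : Finite G) (_ : Finite H),
    Nonempty (Subrack G ≃o Subrack H) ∧
      ¬∃ g : G ≃ H, ∀ x y, g (x * y * x⁻¹) = g x * g y * (g x)⁻¹ := by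
  refine ⟨G true, G false, inferInstance, inferInstance, inferInstance, inferInstance, ⟨iso⟩, ?_⟩
  rintro ⟨g, hg⟩
  let c : G true →* Equiv.Perm (G false) :=
    g.permCongrHom.toMonoidHom.comp ((MulAut.toPerm _).comp MulAut.conj)
  let d : G false →* Equiv.Perm (G false) := (MulAut.toPerm _).comp MulAut.conj
  have hd : Function.Injective d := fun u v h =>
    conj_inj u v (MulEquiv.ext fun z => congrArg (fun p : Equiv.Perm (G false) => p z) h)
  have hc : Function.Injective c := fun u v h => conj_inj u v (MulEquiv.ext fun z => by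
    have := congrArg (fun p : Equiv.Perm (G false) => p (g z)) h
    change g (u * g.symm (g z) * u⁻¹) = g (v * g.symm (g z) * v⁻¹) at this
    rw [g.symm_apply_apply] at this
    exact g.injective this)
  have e : ∀ x, c x = d (g x) := fun x => Equiv.ext fun z => by
    change g (x * g.symm z * x⁻¹) = g x * z * (g x)⁻¹
    rw [hg, g.apply_symm_apply]
  set x := g ⟨0, 1⟩
  set t := g ⟨1, 1⟩ * x⁻¹ with ht
  have et : d t = c ⟨1, 0⟩ := by
    rw [ht, map_mul, map_inv, ← e, ← e, ← map_inv, ← map_mul]; congr 1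
  have h91 : t ^ 91 = 1 := hd (by rw [map_pow, et, ← map_pow, pow_tr, map_one, ← map_one c]; congr 1)
  have h7 : t ^ 7 ≠ 1 := fun h => by
    have := congrArg d h
    rw [map_pow, et, ← map_pow, pow_tr, map_one, ← map_one c] at this
    exact absurd (hc this) (by decide)
  have h13 : t ^ 13 ≠ 1 := fun h => by
    have := congrArg d h
    rw [map_pow, et, ← map_pow, pow_tr, map_one, ← map_one c] at this
    exact absurd (hc this) (by decide)
  have h16 : x * t * x⁻¹ = t ^ 16 := hd (by
    rw [map_pow, map_mul, map_mul, map_inv, et, ← e, ← map_pow, ← map_inv, ← map_mul, ← map_mul,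
      pow_tr]
    congr 1)
  have hi : t.i = 0 := by
    have := pow_i t 91
    rw [h91, one_i] at this
    have h3 : ((91 : ℕ) : ZMod 3) = 1 := by decide
    rw [h3, one_mul] at this
    exact this.symm
  obtain ⟨k, hk⟩ : ∃ k, t = ⟨k, 0⟩ := ⟨t.k, G.ext rfl hi⟩
  rw [hk, pow_tr] at h7 h13 h16
  have h := congrArg G.k h16
  rw [conj_k] at h
  simp only [rho_zero, sub_self, zero_mul, add_zero] at h
  have key : ∀ (i : ZMod 3) (k : K), rho false i * k = ((16 : ℕ) : K) * k →
      ((7 : ℕ) : K) * k = 0 ∨ ((13 : ℕ) : K) * k = 0 := by decide +kernel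
  rcases key _ _ h with h | h
  · exact h7 (G.ext h rfl)
  · exact h13 (G.ext h rfl)

end Pool.Agent.Results.MP_f3891b_al.Frob273
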